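import Pool.Agent.H29.TOW.S
import Pool.Agent.H86.HYP.ONE

/-!
# TOW, row ON3: the main step
-/

set_option autoImplicit false

namespace Pool.TOW

open Polynomial Pool.HYP Pool.AVS Pool.HYP.One86

namespace On3

variable {F : Type} [Field F]

/-- The classes over `E` to which the argument applies. -/
def WW (E : Type) [Field E] [Algebra (RatFunc F) E] (g : ℕ) (f : F[X][X]) (S : Finset F[X])
    (r : F[X]) : Set E[X] :=
  {p | IsCoprime p (fE E f) ∧ NSq (fE E f) p ∧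
    ∀ (L : Type) [Field L] (O : ValuationSubring L) (ι : E →+* L), Cpl E L O ι →
    ∀ P : F[X], P.Monic → Irreducible P → ι (pE E P) ∈ O → (ι (pE E P))⁻¹ ∉ O →
      (P ∈ S → ∀ (c : O) (γ : O[X]) (x : Ty), OkL O g γ →
        (fE E f).map ι = oL O ((X - C c) * γ) → TyL O (ι (pE E P)) c γ x (p.map ι) → x.2 = 0) ∧
      (P ∉ S → Unr E P → ¬ P ∣ r → ∀ fO : O[X], oL O fO = (fE E f).map ι →
        USL O fO (p.map ι))}

theorem map_cop {K L : Type} [Field K] [Field L] (ι : K →+* L) {f h : K[X]}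
    (hc : IsCoprime h f) : IsCoprime (h.map ι) (f.map ι) := cop_map ι hc

theorem oL_monic {L : Type} [Field L] {O : ValuationSubring L} {fO : O[X]} {f : L[X]}
    (h : oL O fO = f) (hf : f.Monic) : fO.Monic := by
  have h1 : (fO.map (algebraMap O L)).Monic := by
    have := hf
    rw [← h] at this
    exact this
  exact Polynomial.monic_of_injective (IsFractionRing.injective O L) h1

theorem mul_mem (hCLA : CLAStmt) (hTYM : TYMStmt) (hTYQ : TYQStmt) (hUSLM : USLMStmt)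
    {E : Type} [Field E] [Algebra (RatFunc F) E] {g : ℕ} (hg : 1 ≤ g) {f : F[X][X]} (hf : f.Monic)
    {S : Finset F[X]} {r : F[X]}
    (hloc : ∀ P ∈ S, ∀ (L : Type) [Field L] (O : ValuationSubring L) (ι : E →+* L), Cpl E L O ι →
      ι (pE E P) ∈ O → (ι (pE E P))⁻¹ ∉ O → Loc L O (ι (pE E P))) :
    ∀ p ∈ WW E g f S r, ∀ q ∈ WW E g f S r, p * q ∈ WW E g f S r := by
  rintro p ⟨hp1, hp2, hp3⟩ q ⟨hq1, hq2, hq3⟩
  have hfE : (fE E f).Monic := (hf.map _).map _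
  refine ⟨hp1.mul_left hq1, nsq_mul hp2 hq2, ?_⟩
  intro L _ O ι hC P hP hi hm hm'
  obtain ⟨hpa, hpb⟩ := hp3 L O ι hC P hP hi hm hm'
  obtain ⟨hqa, hqb⟩ := hq3 L O ι hC P hP hi hm hm'
  refine ⟨fun hPS c γ x hOk hfac hx => ?_, fun hPS hU hr fO hfO => ?_⟩
  · have hl := hloc P hPS L O ι hC hm hm'
    have c1 : IsCoprime (p.map ι) (oL O ((X - C c) * γ)) := by
      rw [← hfac]; exact map_cop ι hp1
    have c2 : IsCoprime (q.map ι) (oL O ((X - C c) * γ)) := by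
      rw [← hfac]; exact map_cop ι hq1
    have n1 : NSq (oL O ((X - C c) * γ)) (p.map ι) := by
      rw [← hfac]; exact nsq_map ι hfE hp2
    have n2 : NSq (oL O ((X - C c) * γ)) (q.map ι) := by
      rw [← hfac]; exact nsq_map ι hfE hq2
    obtain ⟨y, hy⟩ := hCLA L O _ hl g c γ hg hOk _ c1
    obtain ⟨z, hz⟩ := hCLA L O _ hl g c γ hg hOk _ c2
    have h1 := hTYM L O _ hl g c γ hg hOk _ _ y z c1 c2 n1 n2 hy hz
    rw [← Polynomial.map_mul] at h1
    have h2 := hTYQ L O _ hl g c γ hg hOk _ x (y + z) hx h1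
    rw [h2, Prod.snd_add, hpa hPS c γ y hOk hfac hy, hqa hPS c γ z hOk hfac hz, add_zero]
  · have hfO' : fO.Monic := oL_monic hfO (hfE.map ι)
    rw [Polynomial.map_mul]
    exact (hUSLM L O fO hfO').1 _ _ (hpb hPS hU hr fO hfO) (hqb hPS hU hr fO hfO)

theorem sq_mem (hCLA : CLAStmt) (hTYS : TYSStmt) (hTYQ : TYQStmt) (hUSLM : USLMStmt)
    {E : Type} [Field E] [Algebra (RatFunc F) E] {g : ℕ} (hg : 1 ≤ g) {f : F[X][X]} (hf : f.Monic)
    {S : Finset F[X]} {r : F[X]}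
    (hloc : ∀ P ∈ S, ∀ (L : Type) [Field L] (O : ValuationSubring L) (ι : E →+* L), Cpl E L O ι →
      ι (pE E P) ∈ O → (ι (pE E P))⁻¹ ∉ O → Loc L O (ι (pE E P))) :
    ∀ p ∈ WW E g f S r, ∀ q s : E[X], IsCoprime s (fE E f) → fE E f ∣ q - p * s ^ 2 →
      q ∈ WW E g f S r := by
  rintro p ⟨hp1, hp2, hp3⟩ q s hs hd
  have hfE : (fE E f).Monic := (hf.map _).map _
  have hq1 : IsCoprime q (fE E f) := by
    obtain ⟨w, hw⟩ := hd
    have h1 : IsCoprime (p * s ^ 2) (fE E f) := hp1.mul_left hs.pow_left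
    have h2 : q = p * s ^ 2 + fE E f * w := by linear_combination hw
    rw [h2]
    exact h1.add_mul_left_left w
  refine ⟨hq1, ?_, ?_⟩
  · have h1 : AdjoinRoot.mk (fE E f) q = AdjoinRoot.mk (fE E f) (p * s ^ 2) :=
      AdjoinRoot.mk_eq_mk.2 hd
    unfold NSq at hp2 ⊢
    rw [h1, map_mul, map_mul, map_pow, map_pow]
    exact hp2.mul (IsSquare.sq _)
  intro L _ O ι hC P hP hi hm hm'
  obtain ⟨hpa, hpb⟩ := hp3 L O ι hC P hP hi hm hm'
  have hd' : (fE E f).map ι ∣ q.map ι - p.map ι * s.map ι ^ 2 := by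
    have := Polynomial.map_dvd ι hd
    rwa [Polynomial.map_sub, Polynomial.map_mul, Polynomial.map_pow] at this
  have hs' : IsCoprime (s.map ι) ((fE E f).map ι) := map_cop ι hs
  refine ⟨fun hPS c γ x hOk hfac hx => ?_, fun hPS hU hr fO hfO => ?_⟩
  · have hl := hloc P hPS L O ι hC hm hm'
    have c1 : IsCoprime (p.map ι) (oL O ((X - C c) * γ)) := by
      rw [← hfac]; exact map_cop ι hp1
    obtain ⟨y, hy⟩ := hCLA L O _ hl g c γ hg hOk _ c1
    have h1 := hTYS L O _ hl g c γ hg hOk _ _ (s.map ι) y (by rw [← hfac]; exact hs')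
      (by rw [← hfac]; exact hd') hy
    have h2 := hTYQ L O _ hl g c γ hg hOk _ x y hx h1
    rw [h2, hpa hPS c γ y hOk hfac hy]
  · have hfO' : fO.Monic := oL_monic hfO (hfE.map ι)
    exact (hUSLM L O fO hfO').2 _ _ (s.map ι) (by rw [hfO]; exact hs') (by rw [hfO]; exact hd')
      (hpb hPS hU hr fO hfO)

theorem cpl_comp {E L : Type} [Field E] [Field L] [Algebra (RatFunc F) E] {O : ValuationSubring L}
    {ι : E →+* L} (h : Cpl E L O ι) (σ : E ≃ₐ[RatFunc F] E) :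
    Cpl E L O (ι.comp (σ : E →+* E)) where
  dvr := h.dvr
  complete := h.complete
  fin := h.fin
  dense := by
    intro z a ha
    obtain ⟨x, hx⟩ := h.dense z a ha
    refine ⟨σ.symm x, ?_⟩
    have : (ι.comp (σ : E →+* E)) (σ.symm x) = ι x := by simp
    rw [this]
    exact hx

theorem gal_mem
    {E : Type} [Field E] [Algebra (RatFunc F) E] {g : ℕ} {f : F[X][X]} (hf : f.Monic)
    {S : Finset F[X]} {r : F[X]} :
    ∀ p ∈ WW E g f S r, ∀ σ : E ≃ₐ[RatFunc F] E, p.map (σ : E →+* E) ∈ WW E g f S r := by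
  rintro p ⟨hp1, hp2, hp3⟩ σ
  have hfE : (fE E f).Monic := (hf.map _).map _
  have hfσ : (fE E f).map (σ : E →+* E) = fE E f := by
    unfold fE
    rw [Polynomial.map_map]
    congr 1
    ext x
    simp
  refine ⟨?_, ?_, ?_⟩
  · have := map_cop (σ : E →+* E) hp1
    rwa [hfσ] at this
  · have := nsq_map (σ : E →+* E) hfE hp2
    rwa [hfσ] at this
  intro L _ O ι hC P hP hi hm hm'
  have hPσ : (ι.comp (σ : E →+* E)) (pE E P) = ι (pE E P) := by
    simp [pE]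
  have hfι : (fE E f).map (ι.comp (σ : E →+* E)) = (fE E f).map ι := by
    rw [← Polynomial.map_map, hfσ]
  obtain ⟨h1, h2⟩ := hp3 L O (ι.comp (σ : E →+* E)) (cpl_comp hC σ) P hP hi
    (by rw [hPσ]; exact hm) (by rw [hPσ]; exact hm')
  rw [hPσ, hfι] at h1
  rw [hfι] at h2
  have e : (p.map (σ : E →+* E)).map ι = p.map (ι.comp (σ : E →+* E)) := Polynomial.map_map _ _ _
  rw [e]
  exact ⟨h1, h2⟩

/-- The class of a divisor of the twist is in the set `WW`. -/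
theorem sel_mem (hSPIC : SPICStmt) (hUNC : UNCStmt) (hLDAE : LDAEStmt) (hLDBE : LDBEStmt)
    [Finite F] (h2 : (2 : F) ≠ 0)
    {E : Type} [Field E] [Algebra (RatFunc F) E] {g : ℕ} (hg : 1 ≤ g) {f : F[X][X]} (hf : f.Monic)
    (hfn : f.natDegree = 2 * g + 1) (hsm : Smooth f)
    {S : Finset F[X]} {r d : F[X]} (hSsp : ∀ P ∈ S, Spl E P)
    (hdS : ∀ P ∈ S, P ∣ d ∧ ¬ P ^ 2 ∣ d)
    (hdr : ∀ P : F[X], P.Monic → Irreducible P → P ∉ S → ¬ P ∣ r → ¬ P ∣ d) :
    ∀ p : E[X], IsCoprime p (fE E f) → NSq (fE E f) p →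
      (∀ (L : Type) [Field L] (O : ValuationSubring L) (ι : E →+* L), Cpl E L O ι →
        LSDE ι d f p) → p ∈ WW E g f S r := by
  intro p hp hN hL
  refine ⟨hp, hN, ?_⟩
  intro L _ O ι hC P hP hi hm hm'
  refine ⟨fun hPS c γ x hOk hfac hx => ?_, fun hPS hU hr fO hfO => ?_⟩
  · have h1 := hSPIC F h2 P hP hi E L O ι hC hm hm' (hSsp P hPS)
    exact hLDBE F h2 g P hg hP hi E L O ι ⟨h1.loc, h1.mem⟩ f d p c γ x hf hfn hOk hfac
      (hdS P hPS).1 (hdS P hPS).2 hp hN (hL L O ι hC) hx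
  · have h1 := hUNC F h2 P hP hi E L O ι hC hm hm' hU
    exact hLDAE F h2 g P hP hi E L O ι h1 f d p hf hfn (hsm P hP hi) (hdr P hP hi hPS hr) hp hN
      (hL L O ι hC) fO hfO

end On3

open On3 in
/-- ON3: the main step. -/
theorem on3 (hINO : INOStmt) (hLDE : Pool.HYP.LDEStmt) (hCLA : CLAStmt) (hTYM : TYMStmt)
    (hTY0 : TY0Stmt) (hTYU : TYUStmt) (hTYQ : TYQStmt) (hTYS : TYSStmt) (hQSP : QSPStmt)
    (hUSP : USPStmt) (hUNI : Pool.HYP.UNIStmt)
    (hINF : INFStmt) (hUSM : USMStmt) (hREC : RECNStmt) (hIRR : IRRStmt)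
    (hIRU : IRUStmt) (hSPIC : SPICStmt) (hUNC : UNCStmt) (hEXC : EXCStmt) (hTYI : TYIStmt)
    (hUDA : UDAStmt) (hUDB : UDBStmt) (hLDAE : LDAEStmt) (hLDBE : LDBEStmt) (hTWSE : TWSEStmt)
    (hGAL : GALStmt) (hUSLM : USLMStmt) (hIRS : IRSStmt) : ON3Stmt := by
  classical
  intro F _ _ h2 g D h hg hok f hf hsm hbad
  have hT : ∀ P ∈ D.T, P.Monic ∧ Irreducible P := fun P hP => ⟨(hok.1 P hP).1, (hok.1 P hP).2.1⟩
  have hfm : f.Monic := hf.1
  have hfn : f.natDegree = 2 * g + 1 := hf.2.1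
  have hfi : Irreducible (fK f) := hIRR F g D h hok.2.1 hok.2.2.1 hok.2.2.2 f hf
  obtain ⟨S, hS, c, γ, hdat, hA⟩ := partA hINO hLDE hTYM hTY0 hTYU hQSP hUSP hUNI hINF hUSM
    hREC F h2 g D h hg hok f hf LL OO ii (fun P hP => comp h2 (hT P hP).1 (hT P hP).2)
  refine ⟨S, hS, fun r hr0 hrR => ?_⟩
  intro E _ _ hfin hgal hdeg hTsp hram
  by_contra hne
  set e : F[X] := ∏ P ∈ S, P with he
  set d : F[X] := e * r with hd
  -- divisibility
  have hdvd : ∀ P : F[X], P.Monic → Irreducible P → P ∣ e → P ∈ S := by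
    intro P hP hi h1
    obtain ⟨Q, hQ, h3⟩ := (hi.prime.dvd_finsetProd_iff _).1 h1
    have h4 : P = Q := by
      refine eq_of_monic_of_associated hP (hT Q (hS hQ)).1 ?_
      exact (hi.associated_of_dvd (hT Q (hS hQ)).2 h3)
    rw [h4]
    exact hQ
  have hrT : ∀ P ∈ D.T, ¬ P ∣ r := fun P hP h1 =>
    (hrR P (hT P hP).1 (hT P hP).2 h1).1 hP
  have hsq : ∀ P ∈ S, ¬ P ^ 2 ∣ d := by
    intro P hP h1
    rw [hd, he, ← Finset.mul_prod_erase S (fun P => P) hP, pow_two, mul_assoc] at h1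
    have h2' := (mul_dvd_mul_iff_left (hT P (hS hP)).1.ne_zero).1 h1
    have h3 := ((hT P (hS hP)).2.prime.dvd_or_dvd h2').resolve_right (hrT P (hS hP))
    obtain ⟨Q, hQ, h4⟩ := ((hT P (hS hP)).2.prime.dvd_finsetProd_iff _).1 h3
    have h5 : P = Q := by
      refine eq_of_monic_of_associated (hT P (hS hP)).1
        (hT Q (hS (Finset.mem_of_mem_erase hQ))).1 ?_
      exact ((hT P (hS hP)).2.associated_of_dvd (hT Q (hS (Finset.mem_of_mem_erase hQ))).2 h4)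
    exact (Finset.ne_of_mem_erase hQ) h5.symm
  have hd0 : d ≠ 0 :=
    mul_ne_zero (Finset.prod_ne_zero_iff.2 fun P hP => (hT P (hS hP)).1.ne_zero) hr0
  -- a nontrivial class
  obtain ⟨p, hp, hNp, hns, hLS⟩ := hTWSE F E f d hfm hd0 hne
  have hpW : p ∈ WW E g f S r :=
    sel_mem hSPIC hUNC hLDAE hLDBE h2 hg hfm hfn hsm (fun P hP => hTsp P (hS hP))
      (fun P hP => ⟨dvd_mul_of_dvd_left (Finset.dvd_prod_of_mem (fun P => P) hP) r, hsq P hP⟩)
      (fun P hP hi hPS hPr h1 => (hi.prime.dvd_or_dvd h1).elim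
        (fun h3 => hPS (hdvd P hP hi h3)) hPr) p hp hNp hLS
  have hloc : ∀ P ∈ S, ∀ (L : Type) [Field L] (O : ValuationSubring L) (ι : E →+* L),
      Cpl E L O ι → ι (pE E P) ∈ O → (ι (pE E P))⁻¹ ∉ O → Loc L O (ι (pE E P)) := by
    intro P hP L _ O ι hC hm hm'
    exact (hSPIC F h2 P (hT P (hS hP)).1 (hT P (hS hP)).2 E L O ι hC hm hm' (hTsp P (hS hP))).loc
  have h2K : (2 : RatFunc F) ≠ 0 := by
    have h3 : (2 : RatFunc F) = algebraMap F (RatFunc F) 2 := (map_ofNat _ 2).symm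
    rw [h3]
    exact (map_ne_zero (algebraMap F (RatFunc F))).2 h2
  obtain ⟨α, hα, hNα, hnα, hαW⟩ := hGAL (RatFunc F) E h2K hfin hgal hdeg (fK f) (hfm.map _) hfi
    (by rw [hfm.natDegree_map, hfn]; exact odd_two_mul_add_one g) (WW E g f S r)
    (fun p hp => ⟨hp.1, hp.2.1⟩)
    (mul_mem hCLA hTYM hTYQ hUSLM hg hfm hloc)
    (sq_mem hCLA hTYS hTYQ hUSLM hg hfm hloc)
    (gal_mem hfm) ⟨p, hpW, hns⟩
  obtain ⟨-, -, hαc⟩ := hαW
  -- the class is that of a unit outside `S`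
  have hUS1 : ∀ P : F[X], P.Monic → Irreducible P → P ∉ S → US P f α := by
    intro P hP hi hPS
    by_cases hirr : Irreducible (f.map (AdjoinRoot.mk P))
    · exact hIRU F P f α hP hi hfm (by rw [hfn]; exact odd_two_mul_add_one g) hirr hα hNα
    have hPr : ¬ P ∣ r := fun h1 => hirr (hrR P hP hi h1).2
    have hU : Unr E P := by
      refine (hram P hP hi).resolve_right fun h1 => hirr ?_
      exact hIRS F P d f hP hi hfm (by rw [hfn]; omega) h1
    obtain ⟨L, _, O, ι, hC, hm, hm'⟩ := hEXC F h2 P hP hi E hfin hgal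
    have hUC := hUNC F h2 P hP hi E L O ι hC hm hm' hU
    obtain ⟨fO, -, -, hfO, -⟩ := hUDA F P hP hi L O (io ι) hUC f hfm
    have hfO' : oL O fO = (fE E f).map ι := hfO.trans (Polynomial.map_map _ _ _).symm
    have h1 := (hαc L O ι hC P hP hi hm hm').2 hPS hU hPr fO hfO'
    rw [Polynomial.map_map] at h1
    exact hUDB F P hP hi L O (io ι) hUC f hfm (hsm P hP hi) fO hfO α hα h1
  have hcop : ∀ (P : {P // P ∈ D.T}), IsCoprime (α.map (ii P.1))
      (oL (OO P.1) ((X - C (c P)) * γ P)) := by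
    intro P
    rw [← (hdat P).2.1]
    exact cop_map (ii P.1) hα
  have hnsq : ∀ (P : {P // P ∈ D.T}), NSq (oL (OO P.1) ((X - C (c P)) * γ P))
      (α.map (ii P.1)) := by
    intro P
    rw [← (hdat P).2.1]
    exact nsq_map (ii P.1) (hfm.map _) hNα
  have hcomp : ∀ P ∈ D.T, IsComp F (IP P) (rf P) (LL P) (OO P) (ii P) := fun P hP =>
    comp h2 (hT P hP).1 (hT P hP).2
  have hty : ∀ P : {P // P ∈ D.T}, ∃ x : Ty,
      TyL (OO P.1) (ii P.1 (rf P.1)) (c P) (γ P) x (α.map (ii P.1)) := fun P =>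
    hCLA _ _ _ (hcomp P.1 P.2).loc g (c P) (γ P) hg (hdat P).1 _ (hcop P)
  choose x hx using hty
  obtain ⟨h3, h4⟩ := hA α hα hNα
    (fun P h1 h3 h4 => hUS1 P h1 h3 fun h5 => h4 (hS h5)) x hx
    (fun P hPS => by
      obtain ⟨L, _, O, ι, hC, hm, hm'⟩ := hEXC F h2 P.1 (hT P.1 P.2).1 (hT P.1 P.2).2 E hfin hgal
      have hIC := hSPIC F h2 P.1 (hT P.1 P.2).1 (hT P.1 P.2).2 E L O ι hC hm hm'
        (hTsp P.1 P.2)
      obtain ⟨c', γ', hOk', hfac', -, -⟩ := locdata hINO hLDE (hok.1 P.1 P.2) hg hfm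
        (hf.2.2.2 P.1 P.2) hIC
      have hfac'' : (fE E f).map ι = oL O ((X - C c') * γ') :=
        (Polynomial.map_map _ _ _).trans hfac'
      have c1 : IsCoprime (α.map (io ι)) (oL O ((X - C c') * γ')) := by
        rw [← hfac']
        exact cop_map (io ι) hα
      obtain ⟨y, hy⟩ := hCLA L O _ hIC.loc g c' γ' hg hOk' _ c1
      have hy' : TyL O (ι (pE E P.1)) c' γ' y ((α.map (algebraMap (RatFunc F) E)).map ι) := by
        rw [Polynomial.map_map]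
        exact hy
      have h1 := (hαc L O ι hC P.1 (hT P.1 P.2).1 (hT P.1 P.2).2 hm hm').1 hPS c' γ' y hOk'
        hfac'' hy'
      have h5 := hTYI F h2 g P.1 hg (hT P.1 P.2).1 (hT P.1 P.2).2 f hfm hfn (LL P.1) (OO P.1)
        (ii P.1) (hcomp P.1 P.2) L O (io ι) hIC (c P) (γ P) c' γ' (hdat P).1 hOk'
        (hdat P).2.1 hfac' α (x P) y hα hNα (hx P) hy
      rw [h5, h1])
    (fun P hPS => (hTYU _ _ _ (hcomp P.1 P.2).loc g (c P) (γ P) hg (hdat P).1 _ (x P) (hcop P)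
      (hnsq P) (hx P)).1 (((hdat P).2.2.1 α hα).2 (hUS1 P.1 (hT P.1 P.2).1 (hT P.1 P.2).2 hPS)))
  exact hbad ⟨α, hα, hNα, hnα, h3, h4⟩

end Pool.TOW
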