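import Pool.Agent.H29.TOW.Defs

/-!
# TOW: statements of the modules
-/

set_option autoImplicit false

namespace Pool.TOW

open Polynomial Pool.HYP Pool.AVS

section Defs

variable {F : Type} [Field F]

/-- `O` is a complete (Henselian) local ring in which `P` is a uniformizer. -/
structure UComp (P : F[X]) (L : Type) [Field L] (O : ValuationSubring L)
    (ι : RatFunc F →+* L) : Prop where
  loc : Loc L O (ι (rf P))
  mem : ∀ x : RatFunc F, ι x ∈ O ↔ x ∈ IP P

/-- The embedding of `F(t)` in the completion of `E`. -/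
noncomputable abbrev io {E L : Type} [Field E] [Field L] [Algebra (RatFunc F) E] (ι : E →+* L) :
    RatFunc F →+* L := ι.comp (algebraMap (RatFunc F) E)

/-- Over `L`, the class of `p` (for `f`) is the class of a divisor of the twist
`y² = d^(2g+1) f(x/d)`. -/
def LSDE {E L : Type} [Field E] [Field L] [Algebra (RatFunc F) E] (ι : E →+* L) (d : F[X])
    (f : F[X][X]) (p : E[X]) : Prop :=
  ∃ u w s : L[X], u.Monic ∧ IsCoprime u ((fE E (f.scaleRoots d)).map ι) ∧
    u ∣ w ^ 2 - (fE E (f.scaleRoots d)).map ι ∧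
    (fE E f).map ι ∣ kap (u.comp (C (ι (pE E d)) * X)) - p.map ι * s ^ 2

end Defs

/-- LOCC: completions are as required in `Loc`. -/
def LOCCStmt : Prop :=
  ∀ (F : Type) [Field F] [Finite F], (2 : F) ≠ 0 → ∀ (E : Type) [Field E]
    [Algebra (RatFunc F) E] (L : Type) [Field L] (O : ValuationSubring L) (ι : E →+* L),
    Cpl E L O ι → ∀ π : L, π ∈ O → π⁻¹ ∉ O → (∀ z : L, z ∈ O → z⁻¹ ∉ O → z / π ∈ O) →
    Loc L O π

/-- MEMP: the ring of a place above `P`. -/
def MEMPStmt : Prop :=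
  ∀ (F : Type) [Field F] [Finite F] (P : F[X]), P.Monic → Irreducible P → ∀ (L : Type) [Field L]
    (O : ValuationSubring L) (ι : RatFunc F →+* L), ι (rf P) ∈ O → (ι (rf P))⁻¹ ∉ O →
    ∀ x : RatFunc F, ι x ∈ O ↔ x ∈ IP P

/-- SPIC: at a prime which splits completely the completion is that of `F(t)`. -/
def SPICStmt : Prop :=
  ∀ (F : Type) [Field F] [Finite F], (2 : F) ≠ 0 → ∀ (P : F[X]), P.Monic → Irreducible P →
    ∀ (E : Type) [Field E] [Algebra (RatFunc F) E] (L : Type) [Field L]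
    (O : ValuationSubring L) (ι : E →+* L), Cpl E L O ι → ι (pE E P) ∈ O →
    (ι (pE E P))⁻¹ ∉ O → Spl E P → IsComp F (IP P) (rf P) L O (io ι)

/-- UNC: at an unramified prime. -/
def UNCStmt : Prop :=
  ∀ (F : Type) [Field F] [Finite F], (2 : F) ≠ 0 → ∀ (P : F[X]), P.Monic → Irreducible P →
    ∀ (E : Type) [Field E] [Algebra (RatFunc F) E] (L : Type) [Field L]
    (O : ValuationSubring L) (ι : E →+* L), Cpl E L O ι → ι (pE E P) ∈ O →
    (ι (pE E P))⁻¹ ∉ O → Unr E P → UComp P L O (io ι)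

/-- EXC: there is a completion above every prime. -/
def EXCStmt : Prop :=
  ∀ (F : Type) [Field F] [Finite F], (2 : F) ≠ 0 → ∀ (P : F[X]), P.Monic → Irreducible P →
    ∀ (E : Type) [Field E] [Algebra (RatFunc F) E], FiniteDimensional (RatFunc F) E →
    IsGalois (RatFunc F) E → ∃ (L : Type) (_ : Field L) (O : ValuationSubring L) (ι : E →+* L),
      Cpl E L O ι ∧ ι (pE E P) ∈ O ∧ (ι (pE E P))⁻¹ ∉ O

/-- TYI: the type does not depend on the completion. -/
def TYIStmt : Prop :=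
  ∀ (F : Type) [Field F] [Finite F], (2 : F) ≠ 0 → ∀ (g : ℕ) (P : F[X]), 1 ≤ g → P.Monic →
    Irreducible P → ∀ (f : F[X][X]), f.Monic → f.natDegree = 2 * g + 1 →
    ∀ (L : Type) [Field L] (O : ValuationSubring L) (ι : RatFunc F →+* L),
    IsComp F (IP P) (rf P) L O ι →
    ∀ (L' : Type) [Field L'] (O' : ValuationSubring L') (ι' : RatFunc F →+* L'),
    IsComp F (IP P) (rf P) L' O' ι' →
    ∀ (c : O) (γ : O[X]) (c' : O') (γ' : O'[X]), OkL O g γ → OkL O' g γ' →
    (fK f).map ι = oL O ((X - C c) * γ) → (fK f).map ι' = oL O' ((X - C c') * γ') →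
    ∀ (α : (RatFunc F)[X]) (x x' : Ty), IsCoprime α (fK f) → NSq (fK f) α →
      TyL O (ι (rf P)) c γ x (α.map ι) → TyL O' (ι' (rf P)) c' γ' x' (α.map ι') → x = x'

/-- UDA: smooth points and unramified extensions. -/
def UDAStmt : Prop :=
  ∀ (F : Type) [Field F] [Finite F] (P : F[X]), P.Monic → Irreducible P →
    ∀ (L : Type) [Field L] (O : ValuationSubring L) (ι : RatFunc F →+* L), UComp P L O ι →
    ∀ f : F[X][X], f.Monic → ∃ fO : O[X], fO.Monic ∧ fO.natDegree = f.natDegree ∧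
      oL O fO = (fK f).map ι ∧
      (∀ ϖ : O, (ϖ : L) = ι (rf P) → ∀ γ : O[X], γ.Monic → Irreducible (rd O γ) →
        InSq ϖ fO γ → Sing P f)

/-- UDB: unit classes and unramified extensions. -/
def UDBStmt : Prop :=
  ∀ (F : Type) [Field F] [Finite F] (P : F[X]), P.Monic → Irreducible P →
    ∀ (L : Type) [Field L] (O : ValuationSubring L) (ι : RatFunc F →+* L), UComp P L O ι →
    ∀ f : F[X][X], f.Monic → ¬ Sing P f → ∀ fO : O[X], oL O fO = (fK f).map ι →
    ∀ α : (RatFunc F)[X], IsCoprime α (fK f) → USL O fO (α.map ι) → US P f α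

/-- LDAE: the classes of the twist, over `E`, where the twist and `E` are unramified. -/
def LDAEStmt : Prop :=
  ∀ (F : Type) [Field F] [Finite F], (2 : F) ≠ 0 → ∀ (g : ℕ) (P : F[X]), P.Monic →
    Irreducible P → ∀ (E : Type) [Field E] [Algebra (RatFunc F) E] (L : Type) [Field L]
    (O : ValuationSubring L) (ι : E →+* L), UComp P L O (io ι) →
    ∀ (f : F[X][X]) (d : F[X]) (p : E[X]),
    f.Monic → f.natDegree = 2 * g + 1 → ¬ Sing P f → ¬ P ∣ d → IsCoprime p (fE E f) →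
    NSq (fE E f) p → LSDE ι d f p → ∀ fO : O[X], oL O fO = (fE E f).map ι →
    USL O fO (p.map ι)

/-- LDBE: the classes of the twist, over `E`, where the twist is ramified and `E` is not. -/
def LDBEStmt : Prop :=
  ∀ (F : Type) [Field F] [Finite F], (2 : F) ≠ 0 → ∀ (g : ℕ) (P : F[X]), 1 ≤ g → P.Monic →
    Irreducible P → ∀ (E : Type) [Field E] [Algebra (RatFunc F) E] (L : Type) [Field L]
    (O : ValuationSubring L) (ι : E →+* L), UComp P L O (io ι) →
    ∀ (f : F[X][X]) (d : F[X]) (p : E[X]) (c : O) (γ : O[X]) (x : Ty),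
    f.Monic → f.natDegree = 2 * g + 1 → OkL O g γ →
    (fE E f).map ι = oL O ((X - C c) * γ) → P ∣ d → ¬ P ^ 2 ∣ d → IsCoprime p (fE E f) →
    NSq (fE E f) p → LSDE ι d f p → TyL O (ι (pE E P)) c γ x (p.map ι) → x.2 = 0

/-- TWSE: a nontrivial class of the twist over `E`. -/
def TWSEStmt : Prop :=
  ∀ (F : Type) [Field F] (E : Type) [Field E] [Algebra (RatFunc F) E] (f : F[X][X]) (d : F[X]),
    f.Monic → d ≠ 0 → ¬ SelT E (f.scaleRoots d) →
    ∃ p : E[X], IsCoprime p (fE E f) ∧ NSq (fE E f) p ∧ (¬ ∃ s : E[X], fE E f ∣ p - s ^ 2) ∧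
      ∀ (L : Type) [Field L] (O : ValuationSubring L) (ι : E →+* L), Cpl E L O ι →
        LSDE ι d f p

/-- GAL: descent of a nontrivial class from an extension whose degree is a power of two. -/
def GALStmt : Prop :=
  ∀ (K E : Type) [Field K] [Field E] [Algebra K E], (2 : K) ≠ 0 → FiniteDimensional K E →
    IsGalois K E → (∃ m : ℕ, Module.finrank K E = 2 ^ m) →
    ∀ f : K[X], f.Monic → Irreducible f → Odd f.natDegree → ∀ W : Set E[X],
    (∀ p ∈ W, IsCoprime p (f.map (algebraMap K E)) ∧ NSq (f.map (algebraMap K E)) p) →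
    (∀ p ∈ W, ∀ q ∈ W, p * q ∈ W) →
    (∀ p ∈ W, ∀ q s : E[X], IsCoprime s (f.map (algebraMap K E)) →
      f.map (algebraMap K E) ∣ q - p * s ^ 2 → q ∈ W) →
    (∀ p ∈ W, ∀ σ : E ≃ₐ[K] E, p.map (σ : E →+* E) ∈ W) →
    (∃ p ∈ W, ¬ ∃ s : E[X], f.map (algebraMap K E) ∣ p - s ^ 2) →
    ∃ α : K[X], IsCoprime α f ∧ NSq f α ∧ (¬ ∃ s : K[X], f ∣ α - s ^ 2) ∧
      α.map (algebraMap K E) ∈ W

/-- USLM: products and unit classes. -/
def USLMStmt : Prop :=
  ∀ (L : Type) [Field L] (O : ValuationSubring L) (f : O[X]), f.Monic →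
    (∀ h h' : L[X], USL O f h → USL O f h' → USL O f (h * h')) ∧
    ∀ h h' s : L[X], IsCoprime s (oL O f) → oL O f ∣ h' - h * s ^ 2 → USL O f h → USL O f h'

/-- IRS: scaling of the roots and irreducibility modulo `P`. -/
def IRSStmt : Prop :=
  ∀ (F : Type) [Field F] (P d : F[X]) (f : F[X][X]), P.Monic → Irreducible P → f.Monic →
    2 ≤ f.natDegree → Irreducible ((f.scaleRoots d).map (AdjoinRoot.mk P)) →
    Irreducible (f.map (AdjoinRoot.mk P))

/-- ON3: a twist with trivial Selmer groups, and further twists. -/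
def ON3Stmt : Prop :=
  ∀ (F : Type) [Field F] [Finite F], (2 : F) ≠ 0 → ∀ (g : ℕ) (D : Dat F) (h : ℕ), 1 ≤ g →
    D.Ok g → ∀ f ∈ Fam g D h, Smooth f → ¬ Bad D.T f →
    ∃ S ⊆ D.T, ∀ r : F[X], r ≠ 0 →
      (∀ R : F[X], R.Monic → Irreducible R → R ∣ r →
        R ∉ D.T ∧ Irreducible (f.map (AdjoinRoot.mk R))) →
      Tow D.T (f.scaleRoots ((∏ P ∈ S, P) * r))

/-- IRPS: IRP with primes whose degree is divisible by a given power of two. -/
def IRPSStmt : Prop :=
  ∀ (F : Type) [Field F] [Finite F], (2 : F) ≠ 0 → ∀ (g k s : ℕ), 1 ≤ g →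
    ∃ (D : Dat F) (e : ℕ), D.Ok g ∧ D.T.card = k ∧ (∀ P ∈ D.T, P.natDegree = e) ∧ 2 ^ s ∣ e ∧
      2 * (2 * g + 1) * k ≤ Nat.card F ^ e ∧ ∃ h₀ : ℕ, ∀ h : ℕ, h₀ ≤ h →
      100 * {f ∈ Fam g D h | ¬ ∃ A : Finset F[X], A.card = k ∧ ∀ R ∈ A, R.Monic ∧
        Irreducible R ∧ R.natDegree = e ∧ R ∉ D.T ∧
        Irreducible (f.map (AdjoinRoot.mk R))}.ncard ≤ (Fam g D h).ncard

/-- TRNE: translation of `x`. -/
def TRNEStmt : Prop :=
  ∀ (F : Type) [Field F] (T : Finset F[X]) (f : F[X][X]) (c : F[X]), f.Monic →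
    (Tow T (f.comp (X - C c)) ↔ Tow T f)

/-- FINS: the main theorem from its parts. -/
def FINSStmt : Prop := ∀ (F : Type) [Field F] [Finite F], (2 : F) ≠ 0 → TowStmt F

end Pool.TOW
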