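import Pool.Agent.H41.HYP.S7

/-!
# TOW: Selmer groups over extensions of `F(t)` whose degree is a power of two: definitions
-/

set_option autoImplicit false

namespace Pool.TOW

open Polynomial Pool.HYP Pool.AVS

section Defs

variable {F : Type} [Field F]

/-- `f` over the extension `E` of `F(t)`. -/
noncomputable abbrev fE (E : Type) [Field E] [Algebra (RatFunc F) E] (f : F[X][X]) : E[X] :=
  (fK f).map (algebraMap (RatFunc F) E)

/-- A polynomial in `t` as an element of the extension `E` of `F(t)`. -/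
noncomputable abbrev pE (E : Type) [Field E] [Algebra (RatFunc F) E] (P : F[X]) : E :=
  algebraMap (RatFunc F) E (algebraMap F[X] (RatFunc F) P)

/-- `L`, with the valuation ring `O`, is a completion of `E`: it is a complete discretely valued
field with finite residue field and `E` is dense in it. -/
structure Cpl (E : Type) [Field E] (L : Type) [Field L] (O : ValuationSubring L)
    (ι : E →+* L) : Prop where
  dvr : IsDiscreteValuationRing O
  complete : IsAdicComplete (IsLocalRing.maximalIdeal O) O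
  fin : Finite (IsLocalRing.ResidueField O)
  dense : ∀ z a : L, a ≠ 0 → ∃ x : E, (z - ι x) / a ∈ O

/-- `P` is unramified in `E`: it is a uniformizer of every completion of `E` above `P`. -/
def Unr (E : Type) [Field E] [Algebra (RatFunc F) E] (P : F[X]) : Prop :=
  ∀ (L : Type) [Field L] (O : ValuationSubring L) (ι : E →+* L), Cpl E L O ι →
    ι (pE E P) ∈ O → (ι (pE E P))⁻¹ ∉ O → ∀ z : L, z ∈ O → z⁻¹ ∉ O → z / ι (pE E P) ∈ O

/-- `P` splits completely in `E`: `F(t)` is dense in every completion of `E` above `P`. -/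
def Spl (E : Type) [Field E] [Algebra (RatFunc F) E] (P : F[X]) : Prop :=
  ∀ (L : Type) [Field L] (O : ValuationSubring L) (ι : E →+* L), Cpl E L O ι →
    ι (pE E P) ∈ O → (ι (pE E P))⁻¹ ∉ O → ∀ z a : L, a ≠ 0 →
    ∃ x : RatFunc F, (z - ι (algebraMap (RatFunc F) E x)) / a ∈ O

/-- The 2-Selmer group over `E` of the Jacobian of `y² = f(x)` is trivial: every `p` prime to `f`
whose norm from `E[x]/(f)` is a square and whose class is, over every completion of `E`, the
class of a divisor, is a square modulo `f`. -/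
def SelT (E : Type) [Field E] [Algebra (RatFunc F) E] (f : F[X][X]) : Prop :=
  ∀ p : E[X], IsCoprime p (fE E f) →
    IsSquare (Algebra.norm E (AdjoinRoot.mk (fE E f) p)) →
    (∀ (L : Type) [Field L] (O : ValuationSubring L) (ι : E →+* L), Cpl E L O ι →
      LocSol ((fE E f).map ι) (p.map ι)) →
    ∃ s : E[X], fE E f ∣ p - s ^ 2

/-- The 2-Selmer group of the Jacobian of `y² = f(x)` is trivial over every Galois extension `E` of
`F(t)` whose degree is a power of two, in which the primes of `T` split completely and the primes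
modulo which `f` is not irreducible are unramified. -/
def Tow (T : Finset F[X]) (f : F[X][X]) : Prop :=
  ∀ (E : Type) [Field E] [Algebra (RatFunc F) E], FiniteDimensional (RatFunc F) E →
    IsGalois (RatFunc F) E → (∃ m : ℕ, Module.finrank (RatFunc F) E = 2 ^ m) →
    (∀ P ∈ T, Spl E P) →
    (∀ P : F[X], P.Monic → Irreducible P → Unr E P ∨ Irreducible (f.map (AdjoinRoot.mk P))) →
    SelT E f

end Defs

/-- The main theorem. -/
def TowStmt (F : Type) [Field F] : Prop :=
  ∀ g : ℕ, 1 ≤ g → ∀ s : ℕ, ∃ T : Finset F[X],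
    (∀ P ∈ T, P.Monic ∧ Irreducible P ∧ 2 ^ s ∣ P.natDegree) ∧
    ∃ δ : ℝ, 0 < δ ∧ ∃ h0 : ℕ, ∀ h : ℕ, h0 ≤ h →
      (Hyp F g h).Finite ∧ 0 < (Hyp F g h).ncard ∧
      δ * (Hyp F g h).ncard ≤ {f ∈ Hyp F g h | Tow T f ∧ Mini f ∧
        Irreducible (topOf (2 * g + 1) h f)}.ncard ∧
      (((2 * g + 1 : ℕ) : F) ≠ 0 →
        0 < {f ∈ Hyp F g h | f.coeff (2 * g) = 0}.ncard ∧
        δ * {f ∈ Hyp F g h | f.coeff (2 * g) = 0}.ncard ≤
          {f ∈ Hyp F g h | f.coeff (2 * g) = 0 ∧ Tow T f ∧ Mini f ∧
            Irreducible (topOf (2 * g + 1) h f)}.ncard)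

end Pool.TOW
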