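import Pool.Agent.H29.TOW.S

/-!
# TOW: statements of the modules for the second version (a given extension)
-/

set_option autoImplicit false

namespace Pool.TOW

open Polynomial Pool.HYP Pool.AVS

/-- INDZ: independence of the residues modulo `M` and modulo `W`. -/
def INDZStmt : Prop :=
  ∀ (F : Type) [Field F] [Finite F] (g : ℕ) (D : Dat F) (h : ℕ) (W M : F[X]), D.Ok g →
    W.Monic → M.Monic → IsCoprime W M → (∀ P ∈ D.T, P ∣ W) →
    W.natDegree + M.natDegree ≤ h → ∀ φ : F[X][X], φ.Monic → φ.natDegree = 2 * g + 1 →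
    ∀ Q : F[X][X] → Prop, (∀ f u : F[X][X], Q f → Q (f + C W * u)) →
    {f ∈ Fam g D h | C M ∣ f - φ ∧ Q f}.ncard * Nat.card F ^ (M.natDegree * (2 * g + 1)) =
      {f ∈ Fam g D h | Q f}.ncard

/-- DENZ: many smooth curves, with given residues modulo `M`. -/
def DENZStmt : Prop :=
  ∀ (F : Type) [Field F] [Finite F], (2 : F) ≠ 0 → ∀ (g : ℕ) (D : Dat F), 1 ≤ g →
    D.Ok g → ∀ M : F[X], M.Monic → (∀ P ∈ D.T, IsCoprime P M) →
    ∀ φ : F[X][X], φ.Monic → φ.natDegree = 2 * g + 1 →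
    (∀ R : F[X], R.Monic → Irreducible R → R ∣ M → Irreducible (φ.map (AdjoinRoot.mk R))) →
    ∃ h₀ : ℕ, ∀ h : ℕ, h₀ ≤ h →
    5 * {f ∈ Fam g D h | C M ∣ f - φ ∧ ¬ Smooth f}.ncard ≤
      3 * {f ∈ Fam g D h | C M ∣ f - φ}.ncard

/-- BADE: few polynomials have a bad class. -/
def BADEStmt : Prop :=
  ∀ (F : Type) [Field F] [Finite F], (2 : F) ≠ 0 → ∀ g : ℕ, 1 ≤ g → ∀ m : ℕ,
    ∃ k₀ : ℕ, ∀ D : Dat F, D.Ok g → k₀ ≤ D.T.card →
    (∀ P ∈ D.T, 2 * (2 * g + 1) * D.T.card ≤ Nat.card F ^ P.natDegree) →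
    ∃ h₀ : ℕ, ∀ h : ℕ, h₀ ≤ h →
      m * {f ∈ Fam g D h | Bad D.T f}.ncard ≤ (Fam g D h).ncard

/-- IRPZ: for most `f` there are different primes of the degrees of the elements of `T`, modulo
which `f` is irreducible. -/
def IRPZStmt : Prop :=
  ∀ (F : Type) [Field F] [Finite F], (2 : F) ≠ 0 → ∀ (g k m : ℕ) (Z : Finset F[X]), 1 ≤ g →
    ∃ e₀ : ℕ, ∀ D : Dat F, D.Ok g → D.T.card = k → (∀ P ∈ D.T, e₀ ≤ P.natDegree) →
    ∃ h₀ : ℕ, ∀ h : ℕ, h₀ ≤ h →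
      m * {f ∈ Fam g D h | ¬ ∃ ρ : F[X] → F[X], Set.InjOn ρ D.T ∧ ∀ P ∈ D.T, (ρ P).Monic ∧
        Irreducible (ρ P) ∧ (ρ P).natDegree = P.natDegree ∧ ρ P ∉ D.T ∧ ρ P ∉ Z ∧
        Irreducible (f.map (AdjoinRoot.mk (ρ P)))}.ncard ≤ (Fam g D h).ncard

/-- EXDZ: existence of the local data at given primes. -/
def EXDZStmt : Prop :=
  ∀ (F : Type) [Field F] [Finite F] (g : ℕ) (T : Finset F[X]), 1 ≤ g →
    (∀ P ∈ T, P.Monic ∧ Irreducible P) → (∃ D : Dat F, D.Ok g ∧ D.T = T) ∧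
    ∃ (M : F[X]) (φ : F[X][X]), M.Monic ∧
      (∀ P : F[X], P.Monic → Irreducible P → (P ∣ M ↔ P ∈ T)) ∧ φ.Monic ∧
      φ.natDegree = 2 * g + 1 ∧ ∀ P ∈ T, Irreducible (φ.map (AdjoinRoot.mk P))

/-- IRS2: scaling of the roots by a unit modulo `P`. -/
def IRS2Stmt : Prop :=
  ∀ (F : Type) [Field F] (P d : F[X]) (f : F[X][X]), P.Monic → Irreducible P → f.Monic →
    ¬ P ∣ d → Irreducible (f.map (AdjoinRoot.mk P)) →
    Irreducible ((f.scaleRoots d).map (AdjoinRoot.mk P))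

/-- RAMF: almost all primes are unramified. -/
def RAMFStmt : Prop :=
  ∀ (F : Type) [Field F] [Finite F] (E : Type) [Field E] [Algebra (RatFunc F) E],
    FiniteDimensional (RatFunc F) E → IsGalois (RatFunc F) E →
    ∃ Z : Finset F[X], (∀ P ∈ Z, P.Monic ∧ Irreducible P) ∧
      ∀ P : F[X], P.Monic → Irreducible P → P ∉ Z → Unr E P

/-- SPLI: many primes split completely. -/
def SPLIStmt : Prop :=
  ∀ (F : Type) [Field F] [Finite F] (E : Type) [Field E] [Algebra (RatFunc F) E],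
    FiniteDimensional (RatFunc F) E → IsGalois (RatFunc F) E → ∀ k e : ℕ,
    ∃ T : Finset F[X], T.card = k ∧
      ∀ P ∈ T, P.Monic ∧ Irreducible P ∧ e ≤ P.natDegree ∧ Spl E P

/-- TRN2: translation of `x`, over one extension. -/
def TRN2Stmt : Prop :=
  ∀ (F : Type) [Field F] (E : Type) [Field E] [Algebra (RatFunc F) E] (f : F[X][X]) (c : F[X]),
    f.Monic → (SelT E (f.comp (X - C c)) ↔ SelT E f)

/-- The main theorem, second version: over any Galois extension `E₀` of `F(t)` whose degree is a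
power of two. -/
def Tow2Stmt (F : Type) [Field F] : Prop :=
  ∀ g : ℕ, 1 ≤ g → ∀ (E₀ : Type) [Field E₀] [Algebra (RatFunc F) E₀],
    FiniteDimensional (RatFunc F) E₀ → IsGalois (RatFunc F) E₀ →
    (∃ m : ℕ, Module.finrank (RatFunc F) E₀ = 2 ^ m) → ∃ T : Finset F[X],
    (∀ P ∈ T, P.Monic ∧ Irreducible P ∧ Spl E₀ P) ∧
    ∃ δ : ℝ, 0 < δ ∧ ∃ h0 : ℕ, ∀ h : ℕ, h0 ≤ h →
      (Hyp F g h).Finite ∧ 0 < (Hyp F g h).ncard ∧
      δ * (Hyp F g h).ncard ≤ {f ∈ Hyp F g h | SelT E₀ f ∧ Tow T f ∧ Mini f ∧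
        Irreducible (topOf (2 * g + 1) h f)}.ncard ∧
      (((2 * g + 1 : ℕ) : F) ≠ 0 →
        0 < {f ∈ Hyp F g h | f.coeff (2 * g) = 0}.ncard ∧
        δ * {f ∈ Hyp F g h | f.coeff (2 * g) = 0}.ncard ≤
          {f ∈ Hyp F g h | f.coeff (2 * g) = 0 ∧ SelT E₀ f ∧ Tow T f ∧ Mini f ∧
            Irreducible (topOf (2 * g + 1) h f)}.ncard)

/-- FIN2: the main theorem, second version, from its parts. -/
def FIN2Stmt : Prop := ∀ (F : Type) [Field F] [Finite F], (2 : F) ≠ 0 → Tow2Stmt F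

end Pool.TOW
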